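import Pool.Agent.helper22.EC.Defs
import Pool.Agent.helper22.EC.Red

/-!
# MP_00de39_al (project EC), module SC1: transversals of minimal weight
-/

set_option autoImplicit false

namespace Pool.Agent.helper22.EC

open FreeGroup

section

variable {α : Type} {W : Type} [AddCommMonoid W] [LinearOrder W] [IsOrderedCancelAddMonoid W]

/-- the weight of a word -/
def SC1_wt (ω : α → W) (L : List (α × Bool)) : W := (L.map fun l => ω l.1).sum

omit [LinearOrder W] [IsOrderedCancelAddMonoid W] in
theorem SC1_wt_append (ω : α → W) (L L' : List (α × Bool)) :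
    SC1_wt ω (L ++ L') = SC1_wt ω L + SC1_wt ω L' := by
  simp [SC1_wt]

theorem SC1_sub (ω : α → W) (hω : ∀ a, 0 < ω a) {L L' : List (α × Bool)} (h : List.Sublist L L') :
    L = L' ∨ SC1_wt ω L < SC1_wt ω L' := by
  induction h with
  | slnil => exact Or.inl rfl
  | cons a _ ih =>
    right
    rename_i l₁ l₂ _
    have h1 : SC1_wt ω (a :: l₂) = ω a.1 + SC1_wt ω l₂ := by simp [SC1_wt]
    rw [h1]
    rcases ih with rfl | ih
    · exact lt_add_of_pos_left _ (hω _)
    · exact ih.trans (lt_add_of_pos_left _ (hω _))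
  | cons_cons a _ ih =>
    rename_i l₁ l₂ _
    have h1 : ∀ l, SC1_wt ω (a :: l) = ω a.1 + SC1_wt ω l := by intro l; simp [SC1_wt]
    rcases ih with rfl | ih
    · exact Or.inl rfl
    · right
      rw [h1, h1]
      exact add_lt_add_of_le_of_lt le_rfl ih

theorem SC1_sub_le (ω : α → W) (hω : ∀ a, 0 < ω a) {L L' : List (α × Bool)} (h : List.Sublist L L') :
    SC1_wt ω L ≤ SC1_wt ω L' := by
  rcases SC1_sub ω hω h with rfl | h
  · exact le_rfl
  · exact h.le

end

/-- ec:SC1: transversals of minimal weight (`v` is the class of `(t v)⁻¹`). -/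
theorem transversal {α : Type} [DecidableEq α] {W : Type} [AddCommMonoid W] [LinearOrder W]
    [IsOrderedCancelAddMonoid W] [WellFoundedLT W] (ω : α → W) (hω : ∀ a, 0 < ω a)
    (H : Subgroup (FreeGroup α)) :
    ∃ t : FreeGroup α ⧸ H → FreeGroup α, t ((1 : FreeGroup α) : FreeGroup α ⧸ H) = 1 ∧
      (∀ v, (((t v)⁻¹ : FreeGroup α) : FreeGroup α ⧸ H) = v) ∧
      (∀ v p, p <+: (t v).toWord → t (((mk p)⁻¹ : FreeGroup α) : FreeGroup α ⧸ H) = mk p) ∧
      (∀ v (g : FreeGroup α), ((g⁻¹ : FreeGroup α) : FreeGroup α ⧸ H) = v →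
        ((t v).toWord.map fun l => ω l.1).sum ≤ (g.toWord.map fun l => ω l.1).sum) := by
  classical
  -- representatives of minimal weight
  have hmin : ∀ v : FreeGroup α ⧸ H, ∃ g : FreeGroup α,
      ((g⁻¹ : FreeGroup α) : FreeGroup α ⧸ H) = v ∧
      ∀ g' : FreeGroup α, ((g'⁻¹ : FreeGroup α) : FreeGroup α ⧸ H) = v →
        SC1_wt ω g.toWord ≤ SC1_wt ω g'.toWord := by
    intro v
    obtain ⟨a, ha⟩ := QuotientGroup.mk_surjective v
    have hne : ({w : W | ∃ g : FreeGroup α, ((g⁻¹ : FreeGroup α) : FreeGroup α ⧸ H) = v ∧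
        SC1_wt ω g.toWord = w}).Nonempty :=
      ⟨_, a⁻¹, by rw [inv_inv]; exact ha, rfl⟩
    obtain ⟨w, ⟨g, hg, hgw⟩, hw⟩ := (wellFounded_lt (α := W)).has_min _ hne
    refine ⟨g, hg, fun g' hg' => ?_⟩
    have := hw _ ⟨g', hg', rfl⟩
    rw [hgw]
    exact not_lt.1 this
  choose r hr1 hr2 using hmin
  set m : FreeGroup α ⧸ H → W := fun v => SC1_wt ω (r v).toWord with hm
  set base : FreeGroup α ⧸ H := ((1 : FreeGroup α) : FreeGroup α ⧸ H) with hbase
  -- the parent
  have hpar : ∀ v : FreeGroup α ⧸ H, v ≠ base → ∃ (u : FreeGroup α ⧸ H) (y : α × Bool),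
      (mk [y])⁻¹ • u = v ∧ m u + ω y.1 = m v := by
    intro v hv
    have hne : (r v).toWord ≠ [] := by
      intro h
      rw [toWord_eq_nil_iff] at h
      have := hr1 v
      rw [h, inv_one] at this
      exact hv this.symm
    obtain ⟨q, y, hq⟩ := (List.eq_nil_or_concat (r v).toWord).resolve_left hne
    rw [List.concat_eq_append] at hq
    set u : FreeGroup α ⧸ H := (((mk q)⁻¹ : FreeGroup α) : FreeGroup α ⧸ H) with hu
    have hvu : (mk [y])⁻¹ • u = v := by
      have e1 : (mk [y])⁻¹ • u = (((mk [y])⁻¹ * (mk q)⁻¹ : FreeGroup α) : FreeGroup α ⧸ H) := rfl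
      rw [e1, ← mul_inv_rev, FreeGroup.mul_mk, ← hq, mk_toWord]
      exact hr1 v
    refine ⟨u, y, hvu, le_antisymm ?_ ?_⟩
    · have hqr : (mk q).toWord = q := by
        rw [toWord_mk]
        apply IsReduced.reduce_eq
        have hred : IsReduced (r v).toWord := isReduced_toWord
        rw [hq] at hred
        exact red_part hred ⟨[], [y], by simp⟩
      have h1 : m u ≤ SC1_wt ω q := by
        have := hr2 u (mk q) rfl
        rwa [hqr] at this
      have h2 : m v = SC1_wt ω q + ω y.1 := by
        rw [hm]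
        simp only
        rw [hq, SC1_wt_append]
        simp [SC1_wt]
      rw [h2]
      exact add_le_add_left h1 _
    · have h1 : (((r u * mk [y])⁻¹ : FreeGroup α) : FreeGroup α ⧸ H) = v := by
        rw [mul_inv_rev]
        have e1 : (((mk [y])⁻¹ * (r u)⁻¹ : FreeGroup α) : FreeGroup α ⧸ H) =
          (mk [y])⁻¹ • (((r u)⁻¹ : FreeGroup α) : FreeGroup α ⧸ H) := rfl
        rw [e1, hr1 u]
        exact hvu
      refine (hr2 v _ h1).trans ?_
      have h2 : List.Sublist (r u * mk [y]).toWord ((r u).toWord ++ [y]) := by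
        have := toWord_mul_sublist (r u) (mk [y])
        rwa [toWord_mk, reduce_singleton] at this
      refine (SC1_sub_le ω hω h2).trans ?_
      rw [SC1_wt_append]
      apply le_of_eq
      simp [SC1_wt, hm]
  choose pu py hp1 hp2 using hpar
  have hlt : ∀ v hv, m (pu v hv) < m v := by
    intro v hv
    rw [← hp2 v hv]
    exact lt_add_of_pos_right _ (hω _)
  have wf : WellFounded (fun u v : FreeGroup α ⧸ H => m u < m v) := InvImage.wf m wellFounded_lt
  set t : FreeGroup α ⧸ H → FreeGroup α := wf.fix (C := fun _ => FreeGroup α)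
    (fun v rec => if h : v = base then 1 else rec (pu v h) (hlt v h) * mk [py v h]) with htdef
  have ht : ∀ v, t v = if h : v = base then 1 else t (pu v h) * mk [py v h] :=
    fun v => wf.fix_eq _ v
  have ht0 : t base = 1 := by rw [ht]; simp
  have key : ∀ v, (((t v)⁻¹ : FreeGroup α) : FreeGroup α ⧸ H) = v ∧
      SC1_wt ω (t v).toWord = m v ∧
      ∀ p, p <+: (t v).toWord → t (((mk p)⁻¹ : FreeGroup α) : FreeGroup α ⧸ H) = mk p := by
    intro v
    induction v using wf.induction with
    | _ v ih =>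
    by_cases hv : v = base
    · rw [hv, ht0]
      refine ⟨by rw [inv_one], ?_, ?_⟩
      · have h1 : m base ≤ SC1_wt ω (1 : FreeGroup α).toWord := hr2 base 1 (by rw [inv_one])
        have h2 : SC1_wt ω (1 : FreeGroup α).toWord ≤ m base := by
          rw [toWord_one]
          exact SC1_sub_le ω hω (List.nil_sublist _)
        exact le_antisymm h2 h1
      · intro p hp
        rw [toWord_one, List.prefix_nil] at hp
        rw [hp]
        have : (mk ([] : List (α × Bool))) = 1 := rfl
        rw [this, inv_one]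
        exact ht0
    · obtain ⟨i1, i2, i3⟩ := ih (pu v hv) (hlt v hv)
      have htv : t v = t (pu v hv) * mk [py v hv] := by
        rw [ht]; exact dif_neg hv
      have hcl : (((t v)⁻¹ : FreeGroup α) : FreeGroup α ⧸ H) = v := by
        rw [htv, mul_inv_rev]
        have e1 : (((mk [py v hv])⁻¹ * (t (pu v hv))⁻¹ : FreeGroup α) : FreeGroup α ⧸ H) =
          (mk [py v hv])⁻¹ • (((t (pu v hv))⁻¹ : FreeGroup α) : FreeGroup α ⧸ H) := rfl
        rw [e1, i1, hp1]
      have hsub : List.Sublist (t v).toWord ((t (pu v hv)).toWord ++ [py v hv]) := by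
        rw [htv]
        have := toWord_mul_sublist (t (pu v hv)) (mk [py v hv])
        rwa [toWord_mk, reduce_singleton] at this
      have hwt : SC1_wt ω ((t (pu v hv)).toWord ++ [py v hv]) = m v := by
        rw [SC1_wt_append, i2, ← hp2 v hv]
        simp [SC1_wt]
      have hword : (t v).toWord = (t (pu v hv)).toWord ++ [py v hv] := by
        rcases SC1_sub ω hω hsub with h | h
        · exact h
        · exfalso
          rw [hwt] at h
          exact absurd (hr2 v (t v) hcl) (not_le.2 h)
      refine ⟨hcl, by rw [hword, hwt], ?_⟩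
      intro p hp
      rw [hword, List.prefix_concat_iff] at hp
      rcases hp with hp | hp
      · rw [← List.concat_eq_append] at hword
        have hp' : p = (t v).toWord := by
          rw [hp, hword]
          simp
        rw [hp', mk_toWord, hcl]
      · exact i3 p hp
  refine ⟨t, ht0, fun v => (key v).1, fun v => (key v).2.2, ?_⟩
  intro v g hg
  have h1 := (key v).2.1
  have h2 := hr2 v g hg
  change SC1_wt ω (t v).toWord ≤ SC1_wt ω g.toWord
  rw [h1]
  exact h2

end Pool.Agent.helper22.EC
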