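import Pool.Agent.helper22.EC.Defs

/-!
# MP_00de39_al (project EC), module SC2: Schreier bases
-/

set_option autoImplicit false

namespace Pool.Agent.helper22.EC

open FreeGroup

/-- the Schreier generator of the pair `(v, x)` for the transversal `t` -/
noncomputable def bval {α : Type} {H : Subgroup (FreeGroup α)} (t : FreeGroup α ⧸ H → FreeGroup α)
    (p : (FreeGroup α ⧸ H) × α) : FreeGroup α :=
  t p.1 * of p.2 * (t (((t p.1 * of p.2)⁻¹ : FreeGroup α) : FreeGroup α ⧸ H))⁻¹

section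

variable {α : Type}

/-- one factor of the path product -/
noncomputable def SC2_fac {H : Subgroup (FreeGroup α)} (t : FreeGroup α ⧸ H → FreeGroup α)
    (v : FreeGroup α ⧸ H) (y : α × Bool) : FreeGroup α :=
  t v * mk [y] * (t ((mk [y])⁻¹ • v))⁻¹

theorem SC2_path {H : Subgroup (FreeGroup α)} (t : FreeGroup α ⧸ H → FreeGroup α)
    (T : Subgroup (FreeGroup α)) :
    ∀ (w : List (α × Bool)) (v : FreeGroup α ⧸ H),
      (∀ p y q, w = p ++ y :: q → SC2_fac t ((mk p)⁻¹ • v) y ∈ T) →
      t v * mk w * (t ((mk w)⁻¹ • v))⁻¹ ∈ T := by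
  intro w
  induction w with
  | nil =>
    intro v _
    have : (mk ([] : List (α × Bool))) = 1 := rfl
    rw [this, inv_one, one_smul, mul_one, mul_inv_cancel]
    exact T.one_mem
  | cons y w ih =>
    intro v hv
    have h1 : (mk (y :: w)) = mk [y] * mk w := by
      rw [FreeGroup.mul_mk]; rfl
    have h2 : SC2_fac t v y ∈ T := by
      have := hv [] y w rfl
      have h3 : (mk ([] : List (α × Bool))) = 1 := rfl
      rw [h3, inv_one, one_smul] at this
      exact this
    have h3 := ih ((mk [y])⁻¹ • v) (by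
      intro p y' q hw
      have := hv (y :: p) y' q (by rw [hw]; rfl)
      have h4 : (mk (y :: p)) = mk [y] * mk p := by
        rw [FreeGroup.mul_mk]; rfl
      rw [h4, mul_inv_rev, mul_smul] at this
      exact this)
    have h4 : t v * mk (y :: w) * (t ((mk (y :: w))⁻¹ • v))⁻¹ =
        SC2_fac t v y * (t ((mk [y])⁻¹ • v) * mk w * (t ((mk w)⁻¹ • (mk [y])⁻¹ • v))⁻¹) := by
      rw [h1, mul_inv_rev, mul_smul, SC2_fac]
      group
    rw [h4]
    exact T.mul_mem h2 h3

variable {H : Subgroup (FreeGroup α)} (t : FreeGroup α ⧸ H → FreeGroup α)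
  (h1 : ∀ v, (((t v)⁻¹ : FreeGroup α) : FreeGroup α ⧸ H) = v)

include h1 in
theorem SC2_next (v : FreeGroup α ⧸ H) (g : FreeGroup α) :
    (((t v * g)⁻¹ : FreeGroup α) : FreeGroup α ⧸ H) = g⁻¹ • v := by
  rw [mul_inv_rev]
  have h2 : ((g⁻¹ * (t v)⁻¹ : FreeGroup α) : FreeGroup α ⧸ H) =
    g⁻¹ • (((t v)⁻¹ : FreeGroup α) : FreeGroup α ⧸ H) := rfl
  rw [h2, h1]

include h1 in
theorem SC2_bval (v : FreeGroup α ⧸ H) (x : α) :
    bval t (v, x) = t v * of x * (t ((of x)⁻¹ • v))⁻¹ := by
  unfold bval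
  simp only
  rw [SC2_next t h1]

include h1 in
theorem SC2_fac_true (v : FreeGroup α ⧸ H) (x : α) : SC2_fac t v (x, true) = bval t (v, x) := by
  rw [SC2_bval t h1]
  rfl

theorem SC2_mk_false (x : α) : (mk [(x, false)] : FreeGroup α) = (of x)⁻¹ := by
  show mk [(x, false)] = (mk [(x, true)])⁻¹
  rw [inv_mk]
  rfl

include h1 in
theorem SC2_fac_false (v : FreeGroup α ⧸ H) (x : α) :
    SC2_fac t v (x, false) = (bval t (of x • v, x))⁻¹ := by
  rw [SC2_bval t h1, SC2_fac, SC2_mk_false, inv_inv, inv_smul_smul, mul_inv_rev, mul_inv_rev,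
    inv_inv]
  group

include h1 in
theorem SC2_mem (p : (FreeGroup α ⧸ H) × α) : bval t p ∈ H := by
  obtain ⟨v, x⟩ := p
  rw [SC2_bval t h1]
  set v' := (of x)⁻¹ • v with hv'
  have h2 : t v' • v' = ((1 : FreeGroup α) : FreeGroup α ⧸ H) := by
    have e1 : t v' • (((t v')⁻¹ : FreeGroup α) : FreeGroup α ⧸ H) =
      ((t v' * (t v')⁻¹ : FreeGroup α) : FreeGroup α ⧸ H) := rfl
    rw [h1 v', mul_inv_cancel] at e1
    exact e1
  have h3 : (((t v * of x * (t v')⁻¹)⁻¹ : FreeGroup α) : FreeGroup α ⧸ H) =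
      ((1 : FreeGroup α) : FreeGroup α ⧸ H) := by
    rw [mul_assoc, SC2_next t h1, mul_inv_rev, inv_inv, mul_smul, ← hv', h2]
  have h4 := QuotientGroup.eq.1 h3
  rwa [inv_inv, mul_one] at h4

/-- elements of `H` are products of Schreier generators along the path -/
theorem SC2_gen (h0 : t ((1 : FreeGroup α) : FreeGroup α ⧸ H) = 1) (h : FreeGroup α) (hh : h ∈ H)
    (w : List (α × Bool)) (hw : mk w = h) (T : Subgroup (FreeGroup α))
    (hT : ∀ p y q, w = p ++ y :: q →
      SC2_fac t (((mk p)⁻¹ : FreeGroup α) : FreeGroup α ⧸ H) y ∈ T) : h ∈ T := by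
  have h2 := SC2_path t T w ((1 : FreeGroup α) : FreeGroup α ⧸ H) (by
    intro p y q hpq
    have h3 : (mk p)⁻¹ • ((1 : FreeGroup α) : FreeGroup α ⧸ H) =
        (((mk p)⁻¹ : FreeGroup α) : FreeGroup α ⧸ H) := by
      have : (mk p)⁻¹ • ((1 : FreeGroup α) : FreeGroup α ⧸ H) =
        (((mk p)⁻¹ * 1 : FreeGroup α) : FreeGroup α ⧸ H) := rfl
      rw [this, mul_one]
    rw [h3]
    exact hT p y q hpq)
  have h3 : (mk w)⁻¹ • ((1 : FreeGroup α) : FreeGroup α ⧸ H) =
      ((1 : FreeGroup α) : FreeGroup α ⧸ H) := by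
    have : (mk w)⁻¹ • ((1 : FreeGroup α) : FreeGroup α ⧸ H) =
      (((mk w)⁻¹ * 1 : FreeGroup α) : FreeGroup α ⧸ H) := rfl
    rw [this, mul_one, hw]
    refine QuotientGroup.eq.2 ?_
    rw [inv_inv, mul_one]
    exact hh
  rw [h3, h0, inv_one, mul_one, one_mul, hw] at h2
  exact h2

/-! ### the cocycle -/

section Cocycle

variable {Q : Type} [Group Q] (u : α → (FreeGroup α ⧸ H) → Q)

/-- the homomorphism to the wreath product -/
noncomputable def SC2_th : FreeGroup α →*
    ((FreeGroup α ⧸ H → Q) ⋊[mulAutArrow] FreeGroup α) :=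
  FreeGroup.lift fun x => ⟨u x, of x⟩

theorem SC2_th_right (g : FreeGroup α) : (SC2_th u g).right = g := by
  have h : (SemidirectProduct.rightHom.comp (SC2_th u)) = MonoidHom.id (FreeGroup α) := by
    apply FreeGroup.ext_hom
    intro x
    simp [SC2_th]
  exact DFunLike.congr_fun h g

/-- the cocycle -/
noncomputable def SC2_c (g : FreeGroup α) (v : FreeGroup α ⧸ H) : Q := (SC2_th u g).left v

theorem SC2_c_mul (g h : FreeGroup α) (v : FreeGroup α ⧸ H) :
    SC2_c u (g * h) v = SC2_c u g v * SC2_c u h (g⁻¹ • v) := by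
  unfold SC2_c
  rw [MonoidHom.map_mul, SemidirectProduct.mul_left, Pi.mul_apply, SC2_th_right]
  rfl

theorem SC2_c_one (v : FreeGroup α ⧸ H) : SC2_c u 1 v = 1 := by
  unfold SC2_c
  rw [MonoidHom.map_one]
  rfl

theorem SC2_c_of (x : α) (v : FreeGroup α ⧸ H) : SC2_c u (of x) v = u x v := by
  unfold SC2_c SC2_th
  rw [FreeGroup.lift_apply_of]

theorem SC2_c_inv (g : FreeGroup α) (v : FreeGroup α ⧸ H) :
    SC2_c u g⁻¹ v = (SC2_c u g (g • v))⁻¹ := by
  have h := SC2_c_mul u g g⁻¹ (g • v)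
  rw [mul_inv_cancel, SC2_c_one, inv_smul_smul] at h
  exact eq_inv_of_mul_eq_one_right h.symm

/-- the homomorphism on `H` -/
noncomputable def SC2_J : H →* Q where
  toFun h := SC2_c u h ((1 : FreeGroup α) : FreeGroup α ⧸ H)
  map_one' := SC2_c_one u _
  map_mul' := by
    intro g h
    show SC2_c u ((g : FreeGroup α) * h) _ = _
    rw [SC2_c_mul]
    congr 2
    have : (g : FreeGroup α)⁻¹ • ((1 : FreeGroup α) : FreeGroup α ⧸ H) =
      (((g : FreeGroup α)⁻¹ * 1 : FreeGroup α) : FreeGroup α ⧸ H) := rfl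
    rw [this, mul_one]
    refine QuotientGroup.eq.2 ?_
    rw [inv_inv, mul_one]
    exact g.2

end Cocycle

end

section

variable {α : Type} [DecidableEq α] {H : Subgroup (FreeGroup α)}
  (t : FreeGroup α ⧸ H → FreeGroup α)
  (h0 : t ((1 : FreeGroup α) : FreeGroup α ⧸ H) = 1)
  (h1 : ∀ v, (((t v)⁻¹ : FreeGroup α) : FreeGroup α ⧸ H) = v)
  (h2 : ∀ v p, p <+: (t v).toWord → t (((mk p)⁻¹ : FreeGroup α) : FreeGroup α ⧸ H) = mk p)

include h2 in
/-- factors on the tree are trivial -/
theorem SC2_tree (v : FreeGroup α ⧸ H) (p : List (α × Bool)) (y : α × Bool)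
    (h : p ++ [y] <+: (t v).toWord) :
    SC2_fac t (((mk p)⁻¹ : FreeGroup α) : FreeGroup α ⧸ H) y = 1 := by
  have h3 := h2 v (p ++ [y]) h
  have h4 := h2 v p ((List.prefix_append p [y]).trans h)
  have h5 : (mk [y])⁻¹ • (((mk p)⁻¹ : FreeGroup α) : FreeGroup α ⧸ H) =
      (((mk (p ++ [y]))⁻¹ : FreeGroup α) : FreeGroup α ⧸ H) := by
    have : (mk [y])⁻¹ • (((mk p)⁻¹ : FreeGroup α) : FreeGroup α ⧸ H) =
      (((mk [y])⁻¹ * (mk p)⁻¹ : FreeGroup α) : FreeGroup α ⧸ H) := rfl
    rw [this, ← mul_inv_rev, FreeGroup.mul_mk]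
  rw [SC2_fac, h5, h3, h4, ← FreeGroup.mul_mk]
  group

/-- value of the cocycle on the transversal -/
theorem SC2_c_tree {Q : Type} [Group Q] (u : α → (FreeGroup α ⧸ H) → Q)
    (h1 : ∀ v, (((t v)⁻¹ : FreeGroup α) : FreeGroup α ⧸ H) = v)
    (h2 : ∀ v p, p <+: (t v).toWord → t (((mk p)⁻¹ : FreeGroup α) : FreeGroup α ⧸ H) = mk p)
    (hu : ∀ x v, bval t (v, x) = 1 → u x v = 1) (v : FreeGroup α ⧸ H) :
    SC2_c u (t v) ((1 : FreeGroup α) : FreeGroup α ⧸ H) = 1 := by
  have key : ∀ p : List (α × Bool), p <+: (t v).toWord →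
      SC2_c u (mk p) ((1 : FreeGroup α) : FreeGroup α ⧸ H) = 1 := by
    intro p
    induction p using List.reverseRecOn with
    | nil => intro _; exact SC2_c_one u _
    | append_singleton p y ih =>
      intro hp
      have hp' : p <+: (t v).toWord := (List.prefix_append p [y]).trans hp
      rw [← FreeGroup.mul_mk, SC2_c_mul, ih hp', one_mul]
      have h5 : (mk p)⁻¹ • ((1 : FreeGroup α) : FreeGroup α ⧸ H) =
          (((mk p)⁻¹ : FreeGroup α) : FreeGroup α ⧸ H) := by
        have : (mk p)⁻¹ • ((1 : FreeGroup α) : FreeGroup α ⧸ H) =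
          (((mk p)⁻¹ * 1 : FreeGroup α) : FreeGroup α ⧸ H) := rfl
        rw [this, mul_one]
      rw [h5]
      have h6 := SC2_tree t h2 v p y hp
      obtain ⟨x, b⟩ := y
      cases b with
      | true =>
        rw [SC2_fac_true t h1] at h6
        show SC2_c u (of x) _ = 1
        rw [SC2_c_of]
        exact hu x _ h6
      | false =>
        rw [SC2_fac_false t h1, inv_eq_one] at h6
        rw [SC2_mk_false, SC2_c_inv, SC2_c_of, hu x _ h6, inv_one]
  have h3 := key (t v).toWord (List.prefix_refl _)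
  rwa [mk_toWord] at h3

theorem SC2_c_bval {Q : Type} [Group Q] (u : α → (FreeGroup α ⧸ H) → Q)
    (h1 : ∀ v, (((t v)⁻¹ : FreeGroup α) : FreeGroup α ⧸ H) = v)
    (h2 : ∀ v p, p <+: (t v).toWord → t (((mk p)⁻¹ : FreeGroup α) : FreeGroup α ⧸ H) = mk p)
    (hu : ∀ x v, bval t (v, x) = 1 → u x v = 1) (v : FreeGroup α ⧸ H) (x : α) :
    SC2_c u (bval t (v, x)) ((1 : FreeGroup α) : FreeGroup α ⧸ H) = u x v := by
  have hbase : ∀ w : FreeGroup α ⧸ H, (t w)⁻¹ • ((1 : FreeGroup α) : FreeGroup α ⧸ H) = w := by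
    intro w
    have : (t w)⁻¹ • ((1 : FreeGroup α) : FreeGroup α ⧸ H) =
      (((t w)⁻¹ * 1 : FreeGroup α) : FreeGroup α ⧸ H) := rfl
    rw [this, mul_one, h1]
  have hbase' : ∀ w : FreeGroup α ⧸ H, t w • w = ((1 : FreeGroup α) : FreeGroup α ⧸ H) := by
    intro w
    have := hbase w
    rw [inv_smul_eq_iff] at this
    exact this.symm
  rw [SC2_bval t h1, SC2_c_mul, SC2_c_mul, SC2_c_tree t u h1 h2 hu, one_mul, hbase, SC2_c_of,
    mul_inv_rev, mul_smul, hbase, SC2_c_inv, hbase', SC2_c_tree t u h1 h2 hu, inv_one, mul_one]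

include h0 h1 h2 in
/-- the Schreier basis -/
theorem SC2_basis : ∃ B : FreeGroupBasis {p : (FreeGroup α ⧸ H) × α // bval t p ≠ 1} H,
      ∀ p, (B p : FreeGroup α) = bval t p.1 := by
  classical
  set I := {p : (FreeGroup α ⧸ H) × α // bval t p ≠ 1} with hI
  set bv : I → H := fun p => ⟨bval t p.1, SC2_mem t h1 p.1⟩ with hbv
  set u : α → (FreeGroup α ⧸ H) → FreeGroup I := fun x v =>
    if h : bval t (v, x) ≠ 1 then of ⟨(v, x), h⟩ else 1 with hu
  have hu1 : ∀ x v, bval t (v, x) = 1 → u x v = 1 := by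
    intro x v h
    rw [hu]
    simp only [ne_eq, h, not_true_eq_false, dite_false]
  have hJ : ∀ p : I, SC2_J u (bv p) = of p := by
    rintro ⟨⟨v, x⟩, hp⟩
    show SC2_c u (bval t (v, x)) _ = _
    rw [SC2_c_bval t u h1 h2 hu1, hu]
    simp only [ne_eq, hp, not_false_eq_true, dite_true]
  have hinj : Function.Injective (FreeGroup.lift bv : FreeGroup I →* H) := by
    have h3 : (SC2_J u).comp (FreeGroup.lift bv) = MonoidHom.id (FreeGroup I) := by
      apply FreeGroup.ext_hom
      intro p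
      rw [MonoidHom.comp_apply, FreeGroup.lift_apply_of, hJ]
      rfl
    intro a b hab
    have h4 := DFunLike.congr_fun h3 a
    have h5 := DFunLike.congr_fun h3 b
    rw [MonoidHom.comp_apply, hab] at h4
    rw [MonoidHom.comp_apply, h4] at h5
    exact h5
  have hsurj : Function.Surjective (FreeGroup.lift bv : FreeGroup I →* H) := by
    intro h
    have hb : ∀ p : (FreeGroup α ⧸ H) × α, bval t p ∈
        ((FreeGroup.lift bv : FreeGroup I →* H).range.map H.subtype) := by
      intro p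
      by_cases hp : bval t p = 1
      · rw [hp]; exact Subgroup.one_mem _
      · refine ⟨bv ⟨p, hp⟩, ⟨of ⟨p, hp⟩, FreeGroup.lift_apply_of⟩, rfl⟩
    have h3 : (h : FreeGroup α) ∈
        ((FreeGroup.lift bv : FreeGroup I →* H).range.map H.subtype) := by
      refine SC2_gen t h0 h h.2 (h : FreeGroup α).toWord mk_toWord _ ?_
      intro p y q _
      obtain ⟨x, b⟩ := y
      cases b with
      | true =>
        rw [SC2_fac_true t h1]
        exact hb _
      | false =>
        rw [SC2_fac_false t h1]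
        exact Subgroup.inv_mem _ (hb _)
    obtain ⟨g, ⟨a, ha⟩, hg⟩ := h3
    refine ⟨a, ?_⟩
    rw [ha]
    exact Subtype.ext hg
  refine ⟨FreeGroupBasis.ofRepr (MulEquiv.ofBijective (FreeGroup.lift bv) ⟨hinj, hsurj⟩).symm, ?_⟩
  intro p
  show (((MulEquiv.ofBijective (FreeGroup.lift bv : FreeGroup I →* H)
    ⟨hinj, hsurj⟩).symm.symm (of p) : H) : FreeGroup α) = _
  rw [MulEquiv.symm_symm]
  show ((FreeGroup.lift bv (of p) : H) : FreeGroup α) = _
  rw [FreeGroup.lift_apply_of]

/-- `toWord` of a word with a reduced form -/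
theorem SC2_last {g : FreeGroup α} {p : List (α × Bool)} {y : α × Bool}
    (h : g.toWord = p ++ [y]) : mk p = g * (mk [y])⁻¹ := by
  rw [eq_mul_inv_iff_mul_eq, FreeGroup.mul_mk, ← h, mk_toWord]

include h1 h2 in
theorem SC2_reduced (p : (FreeGroup α ⧸ H) × α) (hp : bval t p ≠ 1) :
    (bval t p).toWord = (t p.1).toWord ++ [(p.2, true)] ++
      invRev (t (((t p.1 * of p.2)⁻¹ : FreeGroup α) : FreeGroup α ⧸ H)).toWord := by
  obtain ⟨v, x⟩ := p
  simp only
  rw [SC2_next t h1]
  rw [SC2_bval t h1] at hp ⊢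
  set v' := (of x)⁻¹ • v with hv'
  have h3 : (t v * of x * (t v')⁻¹) =
      mk ((t v).toWord ++ [(x, true)] ++ invRev (t v').toWord) := by
    rw [← FreeGroup.mul_mk, ← FreeGroup.mul_mk, ← inv_mk, mk_toWord, mk_toWord]
    rfl
  rw [h3, toWord_mk]
  refine IsReduced.reduce_eq ?_
  -- the word is reduced
  have hA : IsReduced ((t v).toWord ++ [(x, true)]) := by
    rcases List.eq_nil_or_concat (t v).toWord with h | ⟨q, y, h⟩
    · rw [h]; exact IsReduced.singleton
    · rw [h]
      have hr : IsReduced (q ++ [y]) := by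
        have := isReduced_toWord (x := t v)
        rwa [h, List.concat_eq_append] at this
      rw [List.concat_eq_append] at h ⊢
      refine List.IsChain.append hr (List.isChain_singleton _) ?_
      intro a ha b hb
      simp only [List.getLast?_append, List.getLast?_singleton, Option.some_or, Option.mem_some_iff]
        at ha
      simp only [List.head?_cons, Option.mem_some_iff] at hb
      subst ha hb
      intro hxy
      by_contra hne
      apply hp
      have hy : y = (x, false) := by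
        ext
        · exact hxy
        · simp only at hne ⊢
          cases hy2 : y.2 with
          | true => rw [hy2] at hne; exact absurd rfl hne
          | false => rfl
      rw [hy] at h
      have h4 := SC2_last h
      rw [SC2_mk_false, inv_inv] at h4
      have h5 := h2 v q (by rw [h]; exact List.prefix_append _ _)
      rw [h4, SC2_next t h1, ← hv'] at h5
      rw [h5]
      group
  have hB : IsReduced ([(x, true)] ++ invRev (t v').toWord) := by
    rcases List.eq_nil_or_concat (t v').toWord with h | ⟨q, y, h⟩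
    · rw [h]; exact IsReduced.singleton
    · rw [List.concat_eq_append] at h
      have hr : IsReduced (invRev (t v').toWord) := by
        rw [← toWord_inv]
        exact isReduced_toWord
      rw [h] at hr ⊢
      have h6 : invRev (q ++ [y]) = (y.1, !y.2) :: invRev q := by
        simp [invRev]
      rw [h6] at hr ⊢
      refine List.IsChain.append (List.isChain_singleton _) hr ?_
      intro a ha b hb
      simp only [List.getLast?_singleton, Option.mem_some_iff] at ha
      simp only [List.head?_cons, Option.mem_some_iff] at hb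
      subst ha hb
      intro hxy
      by_contra hne
      apply hp
      have hy : y = (x, true) := by
        ext
        · exact hxy.symm
        · simp only at hne ⊢
          cases hy2 : y.2 with
          | true => rfl
          | false => rw [hy2] at hne; exact absurd rfl hne
      rw [hy] at h
      have h4 := SC2_last h
      have h5 := h2 v' q (by rw [h]; exact List.prefix_append _ _)
      rw [h4, SC2_next t h1] at h5
      have h7 : ((mk [(x, true)])⁻¹ : FreeGroup α)⁻¹ • v' = v := by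
        rw [inv_inv, hv']
        show of x • (of x)⁻¹ • v = v
        rw [smul_inv_smul]
      rw [h7] at h5
      rw [h5]
      show t v' * (of x)⁻¹ * of x * (t v')⁻¹ = 1
      group
  exact IsReduced.append_overlap (L₂ := [(x, true)]) hA hB (by simp)

/-- letters of elements of the subgroup generated by some letters -/
theorem SC2_letters (S : Set α) (g : FreeGroup α) (hg : g ∈ Subgroup.closure (of '' S)) :
    ∀ l ∈ g.toWord, l.1 ∈ S := by
  have h : ∃ L : List (α × Bool), g = mk L ∧ ∀ l ∈ L, l.1 ∈ S := by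
    induction hg using Subgroup.closure_induction with
    | mem x hx =>
      obtain ⟨a, ha, rfl⟩ := hx
      refine ⟨[(a, true)], rfl, ?_⟩
      intro l hl
      rw [List.mem_singleton.1 hl]
      exact ha
    | one => exact ⟨[], rfl, by simp⟩
    | mul x y _ _ hx hy =>
      obtain ⟨L1, rfl, h1⟩ := hx
      obtain ⟨L2, rfl, h2⟩ := hy
      refine ⟨L1 ++ L2, FreeGroup.mul_mk, ?_⟩
      intro l hl
      rcases List.mem_append.1 hl with hl | hl
      · exact h1 l hl
      · exact h2 l hl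
    | inv x _ hx =>
      obtain ⟨L1, rfl, h1⟩ := hx
      refine ⟨invRev L1, inv_mk, ?_⟩
      intro l hl
      have h3 : ∃ l' ∈ L1, l = (l'.1, !l'.2) := by
        simp only [invRev, List.mem_reverse, List.mem_map] at hl
        obtain ⟨a, ha, rfl⟩ := hl
        exact ⟨a, ha, rfl⟩
      obtain ⟨l', hl', rfl⟩ := h3
      exact h1 l' hl'
  obtain ⟨L, rfl, hL⟩ := h
  intro l hl
  rw [toWord_mk] at hl
  exact hL l ((reduce.red (L := L)).sublist.subset hl)

end

/-- ec:SC2: the Schreier basis. -/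
theorem schreier {α : Type} [DecidableEq α] (H : Subgroup (FreeGroup α))
    (t : FreeGroup α ⧸ H → FreeGroup α) (h0 : t ((1 : FreeGroup α) : FreeGroup α ⧸ H) = 1)
    (h1 : ∀ v, (((t v)⁻¹ : FreeGroup α) : FreeGroup α ⧸ H) = v)
    (h2 : ∀ v p, p <+: (t v).toWord → t (((mk p)⁻¹ : FreeGroup α) : FreeGroup α ⧸ H) = mk p) :
    (∃ B : FreeGroupBasis {p : (FreeGroup α ⧸ H) × α // bval t p ≠ 1} H,
      ∀ p, (B p : FreeGroup α) = bval t p.1) ∧
    (∀ p, bval t p ≠ 1 → (bval t p).toWord = (t p.1).toWord ++ [(p.2, true)] ++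
      invRev (t (((t p.1 * of p.2)⁻¹ : FreeGroup α) : FreeGroup α ⧸ H)).toWord) ∧
    (∀ S : Set α, (∀ h ∈ H, h ∈ Subgroup.closure (of '' S) → ∀ p, p <+: h.toWord →
        t (((mk p)⁻¹ : FreeGroup α) : FreeGroup α ⧸ H) ∈ Subgroup.closure (of '' S)) →
      H ⊓ Subgroup.closure (of '' S) = Subgroup.closure
        {g | g ∈ Subgroup.closure (of '' S) ∧ ∃ p, bval t p = g}) := by
  refine ⟨SC2_basis t h0 h1 h2, SC2_reduced t h1 h2, ?_⟩
  intro S hS
  apply le_antisymm
  · rintro h ⟨hh, hhS⟩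
    refine SC2_gen t h0 h hh h.toWord mk_toWord _ ?_
    intro p y q hpq
    have hfac : SC2_fac t (((mk p)⁻¹ : FreeGroup α) : FreeGroup α ⧸ H) y ∈
        Subgroup.closure (of '' S) := by
      have hy : y.1 ∈ S := SC2_letters S h hhS y (by rw [hpq]; simp)
      have hy' : (mk [y] : FreeGroup α) ∈ Subgroup.closure (of '' S) := by
        obtain ⟨x, b⟩ := y
        cases b with
        | true => exact Subgroup.subset_closure ⟨x, hy, rfl⟩
        | false =>
          rw [SC2_mk_false]
          exact Subgroup.inv_mem _ (Subgroup.subset_closure ⟨x, hy, rfl⟩)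
      have e1 := hS h hh hhS p (by rw [hpq]; exact List.prefix_append _ _)
      have e2 := hS h hh hhS (p ++ [y]) (by rw [hpq]; exact ⟨q, by simp⟩)
      have h5 : (mk [y])⁻¹ • (((mk p)⁻¹ : FreeGroup α) : FreeGroup α ⧸ H) =
          (((mk (p ++ [y]))⁻¹ : FreeGroup α) : FreeGroup α ⧸ H) := by
        have : (mk [y])⁻¹ • (((mk p)⁻¹ : FreeGroup α) : FreeGroup α ⧸ H) =
          (((mk [y])⁻¹ * (mk p)⁻¹ : FreeGroup α) : FreeGroup α ⧸ H) := rfl
        rw [this, ← mul_inv_rev, FreeGroup.mul_mk]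
      rw [SC2_fac, h5]
      exact Subgroup.mul_mem _ (Subgroup.mul_mem _ e1 hy') (Subgroup.inv_mem _ e2)
    obtain ⟨x, b⟩ := y
    cases b with
    | true =>
      rw [SC2_fac_true t h1] at hfac ⊢
      exact Subgroup.subset_closure ⟨hfac, _, rfl⟩
    | false =>
      rw [SC2_fac_false t h1] at hfac ⊢
      refine Subgroup.inv_mem _ (Subgroup.subset_closure ⟨?_, _, rfl⟩)
      have := Subgroup.inv_mem _ hfac
      rwa [inv_inv] at this
  · rw [Subgroup.closure_le]
    rintro g ⟨hg, p, rfl⟩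
    exact ⟨SC2_mem t h1 p, hg⟩

end Pool.Agent.helper22.EC
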