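import Pool.Agent.helper51.EC.SC1
import Pool.Agent.helper51.EC.SC2

/-!
# MP_00de39_al (project EC), module SC3: intersections with free factors
-/

set_option autoImplicit false

namespace Pool.Agent.helper22.EC

open FreeGroup

/-- a word all of whose letters are in `S` -/
theorem SC3_mem {α : Type} (S : Set α) : ∀ L : List (α × Bool), (∀ l ∈ L, l.1 ∈ S) →
    (mk L : FreeGroup α) ∈ Subgroup.closure (of '' S) := by
  intro L
  induction L with
  | nil => intro _; exact Subgroup.one_mem _
  | cons y L ih =>
    intro h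
    have h1 : (mk (y :: L) : FreeGroup α) = mk [y] * mk L := by
      rw [FreeGroup.mul_mk]; rfl
    rw [h1]
    refine Subgroup.mul_mem _ ?_ (ih fun l hl => h l (List.mem_cons_of_mem _ hl))
    have hy : y.1 ∈ S := h y (List.mem_cons_self ..)
    obtain ⟨x, b⟩ := y
    cases b with
    | true => exact Subgroup.subset_closure ⟨x, hy, rfl⟩
    | false =>
      rw [SC2_mk_false]
      exact Subgroup.inv_mem _ (Subgroup.subset_closure ⟨x, hy, rfl⟩)

/-- the free group case -/
theorem SC3_free {α : Type} (S : Set α) (H : Subgroup (FreeGroup α)) :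
    IsFF ((Subgroup.closure (of '' S) : Subgroup (FreeGroup α)).subgroupOf H) := by
  classical
  set ω : α → ℕ ×ₗ ℕ := fun a => toLex ((if a ∈ S then 0 else 1), 1) with hω
  have hωpos : ∀ a, 0 < ω a := by
    intro a
    rw [hω]
    simp only
    rw [Prod.Lex.lt_iff]
    by_cases h : a ∈ S
    · right; simp [h]
    · left; simp [h]
  obtain ⟨t, t0, t1, t2, t3⟩ := transversal ω hωpos H
  obtain ⟨⟨B, hB⟩, -, h3⟩ := schreier H t t0 t1 t2
  -- the first coordinate of the weight counts the letters outside `S`
  have hfst : ∀ L : List (α × Bool), (∀ l ∈ L, l.1 ∈ S) →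
      (ofLex (L.map fun l => ω l.1).sum).1 = 0 := by
    intro L
    induction L with
    | nil => intro _; rfl
    | cons y L ih =>
      intro h
      rw [List.map_cons, List.sum_cons]
      have e1 : (ofLex (ω y.1 + (L.map fun l => ω l.1).sum)).1 =
        (ofLex (ω y.1)).1 + (ofLex (L.map fun l => ω l.1).sum).1 := rfl
      rw [e1, ih fun l hl => h l (List.mem_cons_of_mem _ hl)]
      have hy : y.1 ∈ S := h y (List.mem_cons_self ..)
      simp [hω, hy]
  have hfst' : ∀ L : List (α × Bool), (ofLex (L.map fun l => ω l.1).sum).1 = 0 →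
      ∀ l ∈ L, l.1 ∈ S := by
    intro L
    induction L with
    | nil => intro _ l hl; simp at hl
    | cons y L ih =>
      intro h l hl
      rw [List.map_cons, List.sum_cons] at h
      have e1 : (ofLex (ω y.1 + (L.map fun l => ω l.1).sum)).1 =
        (ofLex (ω y.1)).1 + (ofLex (L.map fun l => ω l.1).sum).1 := rfl
      rw [e1] at h
      have h4 : (ofLex (ω y.1)).1 = 0 := by omega
      have h5 : (ofLex (L.map fun l => ω l.1).sum).1 = 0 := by omega
      rcases List.mem_cons.1 hl with rfl | hl
      · by_contra hne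
        rw [hω] at h4
        simp only [hne, if_false] at h4
        exact absurd h4 (by norm_num)
      · exact ih h5 l hl
  have hS : ∀ h ∈ H, h ∈ Subgroup.closure (of '' S) → ∀ p, p <+: h.toWord →
      t (((mk p)⁻¹ : FreeGroup α) : FreeGroup α ⧸ H) ∈ Subgroup.closure (of '' S) := by
    intro h _ hhS p hp
    have hletters := SC2_letters S h hhS
    have hpS : ∀ l ∈ p, l.1 ∈ S := fun l hl => hletters l (hp.subset hl)
    have h4 := t3 (((mk p)⁻¹ : FreeGroup α) : FreeGroup α ⧸ H) (mk p) rfl
    have hpr : (mk p).toWord = p := by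
      rw [toWord_mk]
      apply IsReduced.reduce_eq
      have hred : IsReduced h.toWord := isReduced_toWord
      exact red_part hred hp.isInfix
    rw [hpr] at h4
    have h5 := hfst p hpS
    have h6 : (ofLex (((t (((mk p)⁻¹ : FreeGroup α) : FreeGroup α ⧸ H)).toWord.map
        fun l => ω l.1).sum)).1 = 0 := by
      have h7 := Prod.Lex.monotone_fst _ _ h4
      rw [h5] at h7
      exact Nat.le_zero.1 h7
    have h8 := SC3_mem S _ (hfst' _ h6)
    rwa [mk_toWord] at h8
  have h4 := h3 S hS
  refine ⟨_, B, {p | (B p : FreeGroup α) ∈ Subgroup.closure (of '' S)}, ?_⟩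
  apply Subgroup.map_injective H.subtype_injective
  rw [MonoidHom.map_closure, Subgroup.subgroupOf_map_subtype, inf_comm, h4]
  apply le_antisymm
  · rw [Subgroup.closure_le]
    rintro g ⟨hg, p, rfl⟩
    by_cases hp : bval t p = 1
    · rw [hp]; exact Subgroup.one_mem _
    · apply Subgroup.subset_closure
      refine ⟨B ⟨p, hp⟩, ⟨⟨p, hp⟩, ?_, rfl⟩, hB ⟨p, hp⟩⟩
      show (B ⟨p, hp⟩ : FreeGroup α) ∈ Subgroup.closure (of '' S)
      rw [hB]
      exact hg
  · rw [Subgroup.closure_le]
    rintro g ⟨_, ⟨p, hp, rfl⟩, rfl⟩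
    apply Subgroup.subset_closure
    exact ⟨hp, p.1, (hB p).symm⟩

/-- transport along isomorphisms -/
theorem SC3_transport {G G' : Type} [Group G] [Group G'] (e : G ≃* G') (A H : Subgroup G)
    (h : IsFF ((A.map (e : G →* G')).subgroupOf (H.map (e : G →* G')))) :
    IsFF (A.subgroupOf H) := by
  obtain ⟨ι, b, S, hS⟩ := h
  refine ⟨ι, b.map (e.subgroupMap H).symm, S, ?_⟩
  have h1 : (⇑(b.map (e.subgroupMap H).symm) '' S) =
      ((e.subgroupMap H).symm : _ →* _) '' (b '' S) := by
    rw [Set.image_image]
    rfl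
  rw [h1, ← MonoidHom.map_closure, ← hS]
  ext x
  rw [Subgroup.mem_subgroupOf, Subgroup.mem_map]
  constructor
  · intro hx
    refine ⟨e.subgroupMap H x, ?_, ?_⟩
    · rw [Subgroup.mem_subgroupOf]
      exact ⟨x, hx, rfl⟩
    · exact (e.subgroupMap H).symm_apply_apply x
  · rintro ⟨y, hy, rfl⟩
    rw [Subgroup.mem_subgroupOf] at hy
    obtain ⟨a, ha, hay⟩ := hy
    have h2 : e.subgroupMap H ((e.subgroupMap H).symm y) = y :=
      (e.subgroupMap H).apply_symm_apply y
    have h3 : e (((e.subgroupMap H).symm y : H) : G) = (y : G') := by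
      have := congrArg Subtype.val h2
      exact this
    have h4 : (((e.subgroupMap H).symm y : H) : G) = a := by
      apply e.injective
      rw [h3]
      exact hay.symm
    show (((e.subgroupMap H).symm y : H) : G) ∈ A
    rw [h4]
    exact ha

/-- ec:SC3: the intersection of a subgroup with a free factor is a free factor of the subgroup. -/
theorem ff_inter {G : Type} [Group G] (A H : Subgroup G) (hA : IsFF A) :
    IsFF (A.subgroupOf H) := by
  obtain ⟨ι, b, S, rfl⟩ := hA
  refine SC3_transport b.repr _ H ?_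
  have h1 : (Subgroup.closure (b '' S)).map (b.repr : G →* FreeGroup ι) =
      Subgroup.closure (of '' S) := by
    rw [MonoidHom.map_closure, Set.image_image]
    congr 1
    apply Set.image_congr
    intro i _
    exact b.repr_apply_coe i
  rw [h1]
  exact SC3_free S _

end Pool.Agent.helper22.EC
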