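import Pool.Agent.helper51.EC.SC3
import Pool.Agent.helper22.EC.FF

/-!
# MP_00de39_al (project EC), module SC4: adapted bases of bounded length
-/

set_option autoImplicit false

namespace Pool.Agent.helper22.EC

open FreeGroup Cardinal

section

variable {α : Type} [DecidableEq α] (H : Subgroup (FreeGroup α))

/-- all vertices of the path are in `V` -/
def SC4_Ok (V : Finset (FreeGroup α ⧸ H)) (L : List (α × Bool)) : Prop :=
  ∀ p, p <+: L → (((mk p)⁻¹ : FreeGroup α) : FreeGroup α ⧸ H) ∈ V

variable {H}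

omit [DecidableEq α] in
theorem SC4_cl (p q : List (α × Bool)) :
    (((mk (p ++ q))⁻¹ : FreeGroup α) : FreeGroup α ⧸ H) =
      (mk q)⁻¹ • (((mk p)⁻¹ : FreeGroup α) : FreeGroup α ⧸ H) := by
  rw [← FreeGroup.mul_mk, mul_inv_rev]
  rfl

omit [DecidableEq α] in
theorem SC4_base (g : FreeGroup α) (hg : g ∈ H) :
    ((g⁻¹ : FreeGroup α) : FreeGroup α ⧸ H) = ((1 : FreeGroup α) : FreeGroup α ⧸ H) := by
  refine QuotientGroup.eq.2 ?_
  rw [inv_inv, mul_one]
  exact hg

omit [DecidableEq α] in
theorem SC4_smul_base (g : FreeGroup α) :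
    g⁻¹ • ((1 : FreeGroup α) : FreeGroup α ⧸ H) = ((g⁻¹ : FreeGroup α) : FreeGroup α ⧸ H) := by
  have : g⁻¹ • ((1 : FreeGroup α) : FreeGroup α ⧸ H) =
    ((g⁻¹ * 1 : FreeGroup α) : FreeGroup α ⧸ H) := rfl
  rw [this, mul_one]

omit [DecidableEq α] in
/-- appending after a repeated vertex -/
theorem SC4_Ok_append {V : Finset (FreeGroup α ⧸ H)} {p q s : List (α × Bool)}
    (hp : SC4_Ok H V p) (hq : SC4_Ok H V (q ++ s))
    (hpq : (((mk p)⁻¹ : FreeGroup α) : FreeGroup α ⧸ H) =
      (((mk q)⁻¹ : FreeGroup α) : FreeGroup α ⧸ H)) : SC4_Ok H V (p ++ s) := by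
  intro r hr
  rcases List.prefix_or_prefix_of_prefix hr (List.prefix_append p s) with hr' | ⟨s', rfl⟩
  · exact hp r hr'
  · have hs' : s' <+: s := (List.prefix_append_right_inj p).1 hr
    rw [SC4_cl, hpq, ← SC4_cl]
    exact hq _ ((List.prefix_append_right_inj q).2 hs')

omit [DecidableEq α] in
theorem SC4_step {V : Finset (FreeGroup α ⧸ H)} {L L' : List (α × Bool)} (h : Red.Step L L')
    (hL : SC4_Ok H V L) : SC4_Ok H V L' := by
  cases h with
  | @not L₁ L₂ x b =>
    have h1 : SC4_Ok H V ((L₁ ++ [(x, b), (x, !b)]) ++ L₂) := by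
      have : (L₁ ++ [(x, b), (x, !b)]) ++ L₂ = L₁ ++ (x, b) :: (x, !b) :: L₂ := by simp
      rw [this]; exact hL
    refine SC4_Ok_append ?_ h1 ?_
    · intro p hp
      exact hL p (hp.trans (List.prefix_append _ _))
    · have : (mk (L₁ ++ [(x, b), (x, !b)]) : FreeGroup α) = mk L₁ := by
        apply Quot.sound
        have h2 := @Red.Step.not α L₁ [] x b
        rwa [List.append_nil] at h2
      rw [this]

omit [DecidableEq α] in
theorem SC4_red {V : Finset (FreeGroup α ⧸ H)} {L L' : List (α × Bool)} (h : Red L L')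
    (hL : SC4_Ok H V L) : SC4_Ok H V L' := by
  induction h with
  | refl => exact hL
  | tail _ hstep ih => exact SC4_step hstep ih

theorem SC4_Ok_mem (ws : List (FreeGroup α)) (H : Subgroup (FreeGroup α))
    (hH : H = Subgroup.closure {g | g ∈ ws}) (V : Finset (FreeGroup α ⧸ H))
    (h1 : ((1 : FreeGroup α) : FreeGroup α ⧸ H) ∈ V)
    (hV : ∀ w ∈ ws, SC4_Ok H V w.toWord) :
    ∀ h ∈ H, SC4_Ok H V h.toWord := by
  intro h hh
  rw [hH] at hh
  have key : ∃ L : List (α × Bool), mk L = h ∧ SC4_Ok H V L := by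
    induction hh using Subgroup.closure_induction with
    | mem x hx => exact ⟨x.toWord, mk_toWord, hV x hx⟩
    | one =>
      refine ⟨[], rfl, ?_⟩
      intro p hp
      rw [List.prefix_nil] at hp
      rw [hp]
      have : (mk ([] : List (α × Bool))) = 1 := rfl
      rw [this, inv_one]
      exact h1
    | mul x y hx hy ihx ihy =>
      obtain ⟨L1, rfl, i1⟩ := ihx
      obtain ⟨L2, rfl, i2⟩ := ihy
      refine ⟨L1 ++ L2, FreeGroup.mul_mk, ?_⟩
      refine SC4_Ok_append (q := []) i1 (by simpa using i2) ?_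
      rw [SC4_base _ (by rw [hH]; exact hx)]
      have : (mk ([] : List (α × Bool))) = 1 := rfl
      rw [this, inv_one]
    | inv x hx ihx =>
      obtain ⟨L, rfl, i1⟩ := ihx
      refine ⟨invRev L, inv_mk, ?_⟩
      intro p hp
      obtain ⟨s, hs⟩ := hp
      have h3 : L = invRev s ++ invRev p := by
        have h4 := congrArg invRev hs
        rw [invRev_invRev] at h4
        rw [← h4]
        simp [invRev]
      have h4 := i1 (invRev s) ⟨invRev p, h3.symm⟩
      have h5 : (((mk p)⁻¹ : FreeGroup α) : FreeGroup α ⧸ H) =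
          (((mk (invRev s))⁻¹ : FreeGroup α) : FreeGroup α ⧸ H) := by
        have h6 : (mk p)⁻¹ = (mk (invRev s))⁻¹ * mk L := by
          rw [h3, ← FreeGroup.mul_mk, inv_mul_cancel_left, inv_mk]
        rw [h6]
        refine QuotientGroup.eq.2 ?_
        rw [mul_inv_rev, mul_assoc, inv_mul_cancel, mul_one]
        exact H.inv_mem (by rw [hH]; exact hx)
      rw [h5]
      exact h4
  obtain ⟨L, rfl, hL⟩ := key
  rw [toWord_mk]
  exact SC4_red reduce.red hL

omit [DecidableEq α] in
/-- a path without repetitions is short -/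
theorem SC4_len {V : Finset (FreeGroup α ⧸ H)} {L : List (α × Bool)} (hL : SC4_Ok H V L)
    (hinj : ∀ p q, p <+: L → q <+: L → (((mk p)⁻¹ : FreeGroup α) : FreeGroup α ⧸ H) =
      (((mk q)⁻¹ : FreeGroup α) : FreeGroup α ⧸ H) → p.length = q.length) :
    L.length + 1 ≤ V.card := by
  have h1 : (Finset.range (L.length + 1)).card ≤ V.card := by
    refine Finset.card_le_card_of_injOn
      (fun k => (((mk (L.take k))⁻¹ : FreeGroup α) : FreeGroup α ⧸ H)) ?_ ?_
    · intro k _
      exact hL _ (List.take_prefix _ _)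
    · intro k hk k' hk' heq
      have h2 := hinj _ _ (List.take_prefix k L) (List.take_prefix k' L) heq
      have hk1 := Finset.mem_range.1 (Finset.mem_coe.1 hk)
      have hk2 := Finset.mem_range.1 (Finset.mem_coe.1 hk')
      rw [List.length_take, List.length_take] at h2
      omega
  rwa [Finset.card_range] at h1

omit [DecidableEq α] in
/-- removing loops -/
theorem SC4_short {V : Finset (FreeGroup α ⧸ H)} (S : Set α) {L : List (α × Bool)}
    (hL : SC4_Ok H V L) (hS : ∀ l ∈ L, l.1 ∈ S) :
    ∃ L' : List (α × Bool), (((mk L')⁻¹ : FreeGroup α) : FreeGroup α ⧸ H) =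
      (((mk L)⁻¹ : FreeGroup α) : FreeGroup α ⧸ H) ∧ (∀ l ∈ L', l.1 ∈ S) ∧
      L'.length + 1 ≤ V.card := by
  classical
  have hex : ∃ m : ℕ, ∃ L' : List (α × Bool), L'.length = m ∧
      (((mk L')⁻¹ : FreeGroup α) : FreeGroup α ⧸ H) =
      (((mk L)⁻¹ : FreeGroup α) : FreeGroup α ⧸ H) ∧ (∀ l ∈ L', l.1 ∈ S) ∧ SC4_Ok H V L' :=
    ⟨_, L, rfl, rfl, hS, hL⟩
  obtain ⟨L', h1, h2, h3, h4⟩ := Nat.find_spec hex
  refine ⟨L', h2, h3, ?_⟩
  have key : ∀ p q, p <+: L' → q <+: L' → (((mk p)⁻¹ : FreeGroup α) : FreeGroup α ⧸ H) =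
      (((mk q)⁻¹ : FreeGroup α) : FreeGroup α ⧸ H) → q.length ≤ p.length := by
    intro p q hp hq hpq
    obtain ⟨s, hs⟩ := hq
    have h5 : SC4_Ok H V (p ++ s) := by
      refine SC4_Ok_append (q := q) ?_ (by rw [hs]; exact h4) hpq
      intro r hr
      exact h4 r (hr.trans hp)
    have h6 : (((mk (p ++ s))⁻¹ : FreeGroup α) : FreeGroup α ⧸ H) =
        (((mk L)⁻¹ : FreeGroup α) : FreeGroup α ⧸ H) := by
      rw [SC4_cl, hpq, ← SC4_cl, hs]
      exact h2
    have h7 : ∀ l ∈ p ++ s, l.1 ∈ S := by
      intro l hl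
      rcases List.mem_append.1 hl with hl | hl
      · exact h3 l (hp.subset hl)
      · exact h3 l (by rw [← hs]; exact List.mem_append_right _ hl)
    have h8 : Nat.find hex ≤ (p ++ s).length := Nat.find_min' hex ⟨_, rfl, h6, h7, h5⟩
    rw [← h1, ← hs, List.length_append, List.length_append] at h8
    omega
  exact SC4_len h4 fun p q hp hq hpq => le_antisymm (key q p hq hp hpq.symm) (key p q hp hq hpq)

end

/-- ec:SC4: adapted bases of bounded length. -/
theorem ef_basis {n : ℕ} (ws : List (FreeGroup (Fin n)))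
    (h : EF (Subgroup.closure {g | g ∈ ws})) :
    ∃ b : Fin n → FreeGroup (Fin n), (∀ i, FreeGroup.norm (b i) ≤ 2 * (ws.map FreeGroup.norm).sum + 1) ∧
      (∀ i, b i ∈ Fs n (i.val + 1)) ∧ (∀ i, b i = 1 ∨ b i ∉ Fs n i.val) ∧
      Subgroup.closure {g | g ∈ ws} = Subgroup.closure (Set.range b) := by
  classical
  set H := Subgroup.closure {g | g ∈ ws} with hH
  set N := (ws.map FreeGroup.norm).sum with hN
  -- the vertices of the paths of the generators
  set Ls : List (FreeGroup (Fin n) ⧸ H) := ws.flatMap fun w =>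
    (List.range w.toWord.length).map fun k =>
      (((mk (w.toWord.take (k + 1)))⁻¹ : FreeGroup (Fin n)) : FreeGroup (Fin n) ⧸ H) with hLs
  set V : Finset (FreeGroup (Fin n) ⧸ H) :=
    insert ((1 : FreeGroup (Fin n)) : FreeGroup (Fin n) ⧸ H) Ls.toFinset with hV
  have hVcard : V.card ≤ N + 1 := by
    refine (Finset.card_insert_le _ _).trans ?_
    refine Nat.add_le_add_right ((List.toFinset_card_le _).trans ?_) 1
    rw [hLs, List.length_flatMap, hN]
    simp only [List.length_map, List.length_range]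
    exact le_rfl
  have hVw : ∀ w ∈ ws, SC4_Ok H V w.toWord := by
    intro w hw p hp
    have hpt := List.prefix_iff_eq_take.1 hp
    rcases Nat.eq_zero_or_pos p.length with h0 | h0
    · have : p = [] := List.length_eq_zero_iff.1 h0
      rw [this]
      have : (mk ([] : List (Fin n × Bool))) = 1 := rfl
      rw [this, inv_one]
      exact Finset.mem_insert_self _ _
    · refine Finset.mem_insert_of_mem (List.mem_toFinset.2 ?_)
      rw [hLs]
      refine List.mem_flatMap.2 ⟨w, hw, List.mem_map.2 ⟨p.length - 1, ?_, ?_⟩⟩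
      · rw [List.mem_range]
        have := hp.length_le
        omega
      · have : p.length - 1 + 1 = p.length := by omega
        rw [this, ← hpt]
  have hOk : ∀ g ∈ H, SC4_Ok H V g.toWord :=
    SC4_Ok_mem ws H hH V (Finset.mem_insert_self _ _) hVw
  -- the transversal
  set M := N + 2 with hM
  set ω : Fin n → ℕ := fun j => M ^ (j.val + 1) with hω
  have hωpos : ∀ a, 0 < ω a := fun a => Nat.pow_pos (by omega)
  obtain ⟨t, t0, t1, t2, t3⟩ := transversal ω hωpos H
  obtain ⟨⟨B, hB⟩, hred, hint⟩ := schreier H t t0 t1 t2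
  -- lengths
  have hlen : ∀ v, (SC4_Ok H V (t v).toWord) → (t v).toWord.length ≤ N := by
    intro v hv
    have h1 := SC4_len hv (by
      intro p q hp hq hpq
      have e1 := t2 v p hp
      have e2 := t2 v q hq
      rw [hpq, e2] at e1
      have hr : ∀ r, r <+: (t v).toWord → (mk r).toWord = r := by
        intro r hr
        rw [toWord_mk]
        apply IsReduced.reduce_eq
        exact red_part (isReduced_toWord (x := t v)) hr.isInfix
      have e3 := congrArg FreeGroup.toWord e1
      rw [hr p hp, hr q hq] at e3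
      rw [e3])
    omega
  have hnorm : ∀ p, bval t p ≠ 1 → FreeGroup.norm (bval t p) ≤ 2 * N + 1 := by
    intro p hp
    have h1 := hred p hp
    have hmem := SC2_mem t t1 p
    have h2 : SC4_Ok H V (t p.1).toWord := by
      intro q hq
      refine hOk _ hmem q (hq.trans ?_)
      rw [h1, List.append_assoc]
      exact List.prefix_append _ _
    have h3 : SC4_Ok H V (t (((t p.1 * of p.2)⁻¹ : FreeGroup (Fin n)) :
        FreeGroup (Fin n) ⧸ H)).toWord := by
      intro q hq
      refine hOk _ (H.inv_mem hmem) q (hq.trans ?_)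
      rw [toWord_inv, h1, invRev_append, invRev_invRev]
      exact List.prefix_append _ _
    have h4 := hlen _ h2
    have h5 := hlen _ h3
    show (bval t p).toWord.length ≤ _
    rw [h1, List.length_append, List.length_append, invRev_length]
    simp only [List.length_singleton]
    omega
  -- the intersections with the flag
  have hcond : ∀ i : ℕ, ∀ g ∈ H, g ∈ Subgroup.closure (of '' {j : Fin n | j.val < i}) →
      ∀ p, p <+: g.toWord → t (((mk p)⁻¹ : FreeGroup (Fin n)) : FreeGroup (Fin n) ⧸ H) ∈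
        Subgroup.closure (of '' {j : Fin n | j.val < i}) := by
    intro i g hg hgS p hp
    have hlet := SC2_letters _ g hgS
    obtain ⟨L, hL1, hL2, hL3⟩ := SC4_short (V := V) {j : Fin n | j.val < i} (L := p)
      (fun q hq => hOk g hg q (hq.trans hp)) (fun l hl => hlet l (hp.subset hl))
    have h4 := t3 (((mk p)⁻¹ : FreeGroup (Fin n)) : FreeGroup (Fin n) ⧸ H) (mk L) hL1
    have h5 : ((mk L).toWord.map fun l => ω l.1).sum ≤ (L.map fun l => ω l.1).sum := by
      rw [toWord_mk]
      exact SC1_sub_le ω hωpos (reduce.red (L := L)).sublist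
    have h6 : (L.map fun l => ω l.1).sum ≤ L.length * M ^ i := by
      have h7 : ∀ x ∈ L.map fun l => ω l.1, x ≤ M ^ i := by
        intro x hx
        obtain ⟨l, hl, rfl⟩ := List.mem_map.1 hx
        have h8 : l.1.val < i := hL2 l hl
        exact Nat.pow_le_pow_right (by omega) h8
      have h9 := List.sum_le_card_nsmul _ _ h7
      rwa [List.length_map, smul_eq_mul] at h9
    have h7 : L.length * M ^ i < M ^ (i + 1) := by
      rw [pow_succ']
      exact Nat.mul_lt_mul_of_pos_right (by omega) (Nat.pow_pos (by omega))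
    have h8 : ∀ l ∈ (t (((mk p)⁻¹ : FreeGroup (Fin n)) : FreeGroup (Fin n) ⧸ H)).toWord,
        l.1 ∈ {j : Fin n | j.val < i} := by
      intro l hl
      by_contra hcon
      have hcon' : i ≤ l.1.val := not_lt.1 hcon
      have h9 : ω l.1 ≤ ((t (((mk p)⁻¹ : FreeGroup (Fin n)) :
          FreeGroup (Fin n) ⧸ H)).toWord.map fun l => ω l.1).sum :=
        List.single_le_sum (fun _ _ => Nat.zero_le _) _ (List.mem_map.2 ⟨l, hl, rfl⟩)
      have h10 : M ^ (i + 1) ≤ ω l.1 := Nat.pow_le_pow_right (by omega) (by omega)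
      omega
    have h9 := SC3_mem _ _ h8
    rwa [mk_toWord] at h9
  have hint' : ∀ i : ℕ, H ⊓ Fs n i = Subgroup.closure
      ((fun p => (B p : FreeGroup (Fin n))) '' {p | (B p : FreeGroup (Fin n)) ∈ Fs n i}) := by
    intro i
    have h1 := hint {j : Fin n | j.val < i} (hcond i)
    change H ⊓ Fs n i = _ at h1
    rw [h1]
    apply le_antisymm
    · rw [Subgroup.closure_le]
      rintro g ⟨hg, p, rfl⟩
      by_cases hp : bval t p = 1
      · rw [hp]; exact Subgroup.one_mem _
      · apply Subgroup.subset_closure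
        refine ⟨⟨p, hp⟩, ?_, hB ⟨p, hp⟩⟩
        show (B ⟨p, hp⟩ : FreeGroup (Fin n)) ∈ Fs n i
        rw [hB]
        exact hg
    · rw [Subgroup.closure_le]
      rintro g ⟨p, hp, rfl⟩
      apply Subgroup.subset_closure
      exact ⟨hp, p.1, (hB p).symm⟩
  -- the index sets
  set S : ℕ → Set {p : (FreeGroup (Fin n) ⧸ H) × Fin n // bval t p ≠ 1} :=
    fun i => {p | (B p : FreeGroup (Fin n)) ∈ Fs n i} with hS
  have hfin : Finite {p : (FreeGroup (Fin n) ⧸ H) × Fin n // bval t p ≠ 1} := by
    have hinj : Function.Injective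
        (fun p : {p : (FreeGroup (Fin n) ⧸ H) × Fin n // bval t p ≠ 1} =>
          ((⟨p.1.1, by
            have h1 := hred p.1 p.2
            have hmem := SC2_mem t t1 p.1
            have h3 := hOk _ hmem (t p.1.1).toWord (by
              rw [h1, List.append_assoc]; exact List.prefix_append _ _)
            rw [mk_toWord, t1] at h3
            exact h3⟩, p.1.2) : V × Fin n)) := by
      intro p q hpq
      have h1 := congrArg Prod.fst hpq
      have h2 := congrArg Prod.snd hpq
      have h3 := congrArg Subtype.val h1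
      exact Subtype.ext (Prod.ext h3 h2)
    exact Finite.of_injective _ hinj
  have hmono : ∀ i, S i ⊆ S (i + 1) := by
    intro i p hp
    have hle : Fs n i ≤ Fs n (i + 1) := by
      apply Subgroup.closure_mono
      apply Set.image_mono
      intro j hj
      exact Nat.lt_succ_of_lt hj
    exact hle hp
  have hstep : ∀ i < n, (S (i + 1)).ncard ≤ (S i).ncard + 1 := by
    intro i hi
    have h1 := h i hi
    change rk (H ⊓ Fs n (i + 1)) ≤ rk (H ⊓ Fs n i) + 1 at h1
    rw [hint' (i + 1), hint' i, rk_closure, rk_closure] at h1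
    have e1 : ∀ j, #(S j) = ((S j).ncard : Cardinal) := fun j =>
      (Set.cast_ncard (Set.toFinite _)).symm
    change #(S (i + 1)) ≤ #(S i) + 1 at h1
    rw [e1, e1] at h1
    exact_mod_cast h1
  have huniq : ∀ i < n, ∀ p ∈ S (i + 1), p ∉ S i → ∀ q ∈ S (i + 1), q ∉ S i → p = q := by
    intro i hi p hp hp' q hq hq'
    by_contra hne
    have h1 : ((S i) ∪ {p, q}).ncard = (S i).ncard + 2 := by
      rw [Set.ncard_union_eq ?_ (Set.toFinite _) (Set.toFinite _), Set.ncard_pair hne]
      rw [Set.disjoint_right]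
      intro x hx
      rcases hx with rfl | hx
      · exact hp'
      · rw [Set.mem_singleton_iff.1 hx]; exact hq'
    have h2 : (S i) ∪ {p, q} ⊆ S (i + 1) := by
      apply Set.union_subset (hmono i)
      intro x hx
      rcases hx with rfl | hx
      · exact hp
      · rw [Set.mem_singleton_iff.1 hx]; exact hq
    have h3 := Set.ncard_le_ncard h2 (Set.toFinite _)
    have h4 := hstep i hi
    omega
  -- the basis
  have hchoice : ∀ i : Fin n, ∃ g : FreeGroup (Fin n),
      ((∃ p, p ∈ S (i.val + 1) ∧ p ∉ S i.val ∧ g = B p) ∨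
        ((∀ p, p ∈ S (i.val + 1) → p ∈ S i.val) ∧ g = 1)) := by
    intro i
    by_cases hex : ∃ p, p ∈ S (i.val + 1) ∧ p ∉ S i.val
    · obtain ⟨p, hp, hp'⟩ := hex
      exact ⟨B p, Or.inl ⟨p, hp, hp', rfl⟩⟩
    · push Not at hex
      exact ⟨1, Or.inr ⟨hex, rfl⟩⟩
  choose b hb using hchoice
  have hrange : H = Subgroup.closure (Set.range fun p => (B p : FreeGroup (Fin n))) := by
    have h1 := hint' n
    have h2 : Fs n n = ⊤ := by
      unfold Fs
      have h3 : (of '' {j : Fin n | j.val < n}) = Set.range (of : Fin n → FreeGroup (Fin n)) := by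
        rw [← Set.image_univ]
        congr 1
        ext j
        simp
      rw [h3, FreeGroup.closure_range_of]
    rw [h2, inf_top_eq] at h1
    refine h1.trans ?_
    congr 1
    ext g
    constructor
    · rintro ⟨p, _, rfl⟩; exact ⟨p, rfl⟩
    · rintro ⟨p, rfl⟩
      exact ⟨p, by simp, rfl⟩
  refine ⟨b, ?_, ?_, ?_, ?_⟩
  · intro i
    rcases hb i with ⟨p, _, _, h3⟩ | ⟨_, h3⟩
    · rw [h3, hB]
      exact hnorm p.1 p.2
    · rw [h3, FreeGroup.norm_one]
      exact Nat.zero_le _
  · intro i
    rcases hb i with ⟨p, h1, _, h3⟩ | ⟨_, h3⟩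
    · rw [h3]; exact h1
    · rw [h3]; exact Subgroup.one_mem _
  · intro i
    rcases hb i with ⟨p, _, h2, h3⟩ | ⟨_, h3⟩
    · right
      rw [h3]; exact h2
    · left; exact h3
  · apply le_antisymm
    · conv_lhs => rw [hrange]
      rw [Subgroup.closure_le]
      rintro g ⟨p, rfl⟩
      -- the first member of the flag which contains `B p`
      have hex : ∃ i, p ∈ S i := by
        refine ⟨n, ?_⟩
        show (B p : FreeGroup (Fin n)) ∈ Fs n n
        unfold Fs
        have h3 : (of '' {j : Fin n | j.val < n}) = Set.range (of : Fin n → FreeGroup (Fin n)) := by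
          rw [← Set.image_univ]
          congr 1
          ext j
          simp
        rw [h3, FreeGroup.closure_range_of]
        exact Subgroup.mem_top _
      have h1 := Nat.find_spec hex
      have hle : Nat.find hex ≤ n := by
        apply Nat.find_min' hex
        show (B p : FreeGroup (Fin n)) ∈ Fs n n
        unfold Fs
        have h3 : (of '' {j : Fin n | j.val < n}) = Set.range (of : Fin n → FreeGroup (Fin n)) := by
          rw [← Set.image_univ]
          congr 1
          ext j
          simp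
        rw [h3, FreeGroup.closure_range_of]
        exact Subgroup.mem_top _
      rcases Nat.eq_zero_or_pos (Nat.find hex) with h0 | h0
      · exfalso
        rw [h0] at h1
        have h2 : (B p : FreeGroup (Fin n)) ∈ Fs n 0 := h1
        have h3 : Fs n 0 = ⊥ := by
          unfold Fs
          have : {j : Fin n | j.val < 0} = ∅ := by ext j; simp
          rw [this, Set.image_empty, Subgroup.closure_empty]
        rw [h3, Subgroup.mem_bot, hB] at h2
        exact p.2 h2
      · have h2 : p ∉ S (Nat.find hex - 1) := Nat.find_min hex (by omega)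
        have h3 : Nat.find hex - 1 + 1 = Nat.find hex := by omega
        have h4 : p ∈ S (Nat.find hex - 1 + 1) := by rw [h3]; exact h1
        set i : Fin n := ⟨Nat.find hex - 1, by omega⟩ with hi
        rcases hb i with ⟨q, h5, h6, h7⟩ | ⟨h5, _⟩
        · have h8 : p = q := huniq i.val i.2 p h4 h2 q h5 h6
          apply Subgroup.subset_closure
          refine ⟨i, ?_⟩
          rw [h7, h8]
        · exact absurd (h5 p h4) h2
    · rw [Subgroup.closure_le]
      rintro g ⟨i, rfl⟩
      rcases hb i with ⟨p, _, _, h3⟩ | ⟨_, h3⟩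
      · rw [h3]; exact (B p).2
      · rw [h3]; exact H.one_mem

end Pool.Agent.helper22.EC
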